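import Pool.Agent.Helper49.NF.Goals

set_option autoImplicit false

namespace Pool.Agent.Helper9.NF

open Pool.Agent.Helper49.NF

lemma core (n m f h : ℕ) (hh : 1 ≤ h) (hm1 : 1 ≤ m) (hm : 1000 * h ^ 4 * m ≤ n)
    (hf : 1000 * h ^ 4 * f ≤ n) :
    m ≤ n / (4 * h ^ 2) ∧ n / (4 * h ^ 2) ≤ n ∧ 4 * f ≤ n / (4 * h ^ 2) - m ∧
    4 * (m * n) ≤ (n / (4 * h ^ 2) - m) ^ 2 ∧ 2 * m ≤ n / (4 * h ^ 2) - m ∧
    64 * h ^ 2 * (n / (4 * h ^ 2)) + h * (m + 1) ≤ 63 * (n - m) ∧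
    65 * (h * (m + 1)) ≤ 63 * (n - m) ∧ 2 * (m + 1) ≤ n := by
  have hpos : 0 < 4 * h ^ 2 := by positivity
  have h24 : h ^ 2 ≤ h ^ 4 := Nat.pow_le_pow_right hh (by norm_num)
  have h14 : h ≤ h ^ 4 := Nat.le_self_pow (by norm_num) h
  have h4 : 1 ≤ h ^ 4 := Nat.one_le_pow _ _ hh
  have e1 : h ^ 2 * m ≤ h ^ 4 * m := Nat.mul_le_mul_right _ h24
  have e2 : h ^ 2 * f ≤ h ^ 4 * f := Nat.mul_le_mul_right _ h24
  have e3 : h * m ≤ h ^ 4 * m := Nat.mul_le_mul_right _ h14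
  have e4 : m ≤ h ^ 4 * m := Nat.le_mul_of_pos_left _ (by positivity)
  have e5 : h ≤ h * m := Nat.le_mul_of_pos_right _ (by omega)
  have e6 : h ^ 2 ≤ h ^ 2 * m := Nat.le_mul_of_pos_right _ (by omega)
  have e7 : h ^ 4 * m * 1000 ≤ n := by linarith
  have e8 : h ^ 4 * f * 1000 ≤ n := by linarith
  set z := n / (4 * h ^ 2) with hz
  have z1 : 4 * h ^ 2 * z ≤ n := Nat.mul_div_le _ _
  have z2 : n < 4 * h ^ 2 * (z + 1) := Nat.lt_mul_div_succ n hpos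
  have c3m : 3 * m ≤ z := by
    rw [hz, Nat.le_div_iff_mul_le hpos]
    nlinarith
  have c4f : 4 * f + m ≤ z := by
    rw [hz, Nat.le_div_iff_mul_le hpos]
    nlinarith
  have hmn : m ≤ n := by omega
  obtain ⟨w, hw⟩ : ∃ w, z = m + w := ⟨z - m, by omega⟩
  have hzm : z - m = w := by omega
  obtain ⟨v, hv⟩ : ∃ v, n = m + v := ⟨n - m, by omega⟩
  have hnm : n - m = v := by omega
  refine ⟨by omega, Nat.div_le_self _ _, by omega, ?_, by omega, ?_, ?_, by omega⟩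
  · rw [hzm]
    have k1 : n ≤ 8 * h ^ 2 * w := by
      rw [hw] at z2
      nlinarith
    have k2 : n * n ≤ (8 * h ^ 2 * w) * (8 * h ^ 2 * w) := Nat.mul_le_mul k1 k1
    have k3 : 256 * h ^ 4 * m * n ≤ n * n := Nat.mul_le_mul_right _ (by linarith)
    have k4 : (64 * h ^ 4) * (4 * (m * n)) ≤ (64 * h ^ 4) * w ^ 2 := by
      calc (64 * h ^ 4) * (4 * (m * n)) = 256 * h ^ 4 * m * n := by ring
        _ ≤ n * n := k3
        _ ≤ (8 * h ^ 2 * w) * (8 * h ^ 2 * w) := k2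
        _ = (64 * h ^ 4) * w ^ 2 := by ring
    exact Nat.le_of_mul_le_mul_left k4 (by positivity)
  · rw [hnm]
    have k1 : 64 * h ^ 2 * z = 16 * (4 * h ^ 2 * z) := by ring
    have k2 : h * (m + 1) = h * m + h := by ring
    rw [k1, k2]
    omega
  · rw [hnm]
    have k2 : h * (m + 1) = h * m + h := by ring
    rw [k2]
    omega

theorem goal_N1B (hLOG : Goal_LOG) : Goal_N1B := by
  obtain ⟨n₁, h₁⟩ := hLOG ((1000 ^ 10 * 8 ^ 40) ^ 5) 200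
  obtain ⟨n₂, h₂⟩ := hLOG 1 1
  refine ⟨max 2 (max n₁ n₂), ?_⟩
  intro n hn m K f h z hm1 hm hK hK100 hf hh hz
  have hn2 : 2 ≤ n := le_trans (le_max_left _ _) hn
  have hnn1 : n₁ ≤ n := le_trans (le_trans (le_max_left _ _) (le_max_right _ _)) hn
  have hl : 1 ≤ Lg n := Nat.clog_pos (by norm_num) hn2
  have hlog := h₁ n hnn1
  set l := Lg n with hldef
  have hh1 : 1 ≤ h := by rw [hh]; exact Nat.one_le_iff_ne_zero.2 (by positivity)
  -- the main bound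
  have key : (1000 * h ^ 4) ^ 10 ≤ n := by
    have a1 : ((1000 * h ^ 4) ^ 10) ^ 5 ≤ n ^ 5 := by
      calc ((1000 * h ^ 4) ^ 10) ^ 5
          = (K ^ 100) ^ 2 * ((1000 ^ 10 * 8 ^ 40) ^ 5 * l ^ 200) := by rw [hh]; ring
        _ ≤ n ^ 2 * ((1000 ^ 10 * 8 ^ 40) ^ 5 * (l + 1) ^ 200) :=
            Nat.mul_le_mul (Nat.pow_le_pow_left hK100 2)
              (Nat.mul_le_mul_left _ (Nat.pow_le_pow_left (Nat.le_succ _) 200))
        _ ≤ n ^ 2 * n := Nat.mul_le_mul_left _ hlog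
        _ = n ^ 3 := by ring
        _ ≤ n ^ 5 := Nat.pow_le_pow_right (by omega) (by norm_num)
    exact le_of_pow_le_pow_left₀ (by norm_num) (Nat.zero_le _) a1
  have hc1 : 1 ≤ 1000 * h ^ 4 := Nat.one_le_iff_ne_zero.2 (by positivity)
  have hmm : 1000 * h ^ 4 * m ≤ n := by
    have a1 : (1000 * h ^ 4 * m) ^ 10 ≤ n ^ 10 := by
      calc (1000 * h ^ 4 * m) ^ 10 = (1000 * h ^ 4) ^ 10 * m ^ 10 := by rw [mul_pow]
        _ ≤ n * n ^ 9 := Nat.mul_le_mul key hm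
        _ = n ^ 10 := by ring
    exact le_of_pow_le_pow_left₀ (by norm_num) (Nat.zero_le _) a1
  have hff : 1000 * h ^ 4 * f ≤ n := by
    have a1 : (1000 * h ^ 4 * f) ^ 5 ≤ n ^ 5 := by
      calc (1000 * h ^ 4 * f) ^ 5 = (1000 * h ^ 4) ^ 5 * f ^ 5 := by rw [mul_pow]
        _ ≤ (1000 * h ^ 4) ^ 10 * f ^ 5 :=
            Nat.mul_le_mul_right _ (Nat.pow_le_pow_right hc1 (by norm_num))
        _ ≤ n * n ^ 4 := Nat.mul_le_mul key hf
        _ = n ^ 5 := by ring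
    exact le_of_pow_le_pow_left₀ (by norm_num) (Nat.zero_le _) a1
  have hcore := core n m f h hh1 hm1 hmm hff
  rw [← hz] at hcore
  exact ⟨hh1, hcore⟩

end Pool.Agent.Helper9.NF
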